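import Mathlib

/-!
# MP_1ea763_an, Q1: the multiplicative Khintchin sequences form a meagre set

Sketch. Given a prefix of length `p` and a modulus `M`, continue with powers of `2` so that the
exponents `k(n)` of the partial products (relative to the prefix) with `4^j p < n ≤ 4^(j+1) p` are all
`≡ j mod M`, `j = 0, ..., M-1`. Let `A` be a tiny set, `τ(y)` the first time at which the orbit of `y`
under the doubling map visits `A`, and `E = {τ ≡ 0 mod M}`. Since the measure of `{τ = i}` is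
nonincreasing in `i`, `|E| ≤ 1/M + |A|`. If `τ(y)` is large and `≡ j mod M`, then `2^k(n) y ∈ E` for all
`n` in the `j`-th block, and the average of `1_E` up to `4^(j+1) p` is at least `3/4`. Doing this for
infinitely many stages, which a generic `ω` does, and taking the union `F` of the sets `E`, one gets
`|F| ≤ 1/2` while the averages of `1_F` are `≥ 3/4` infinitely often at almost every point.
-/

open Set Filter Topology MeasureTheory
open scoped ENNReal

namespace Pool.Agent.Results.MP_1ea763_an.KhintchinMeagre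

section tower

variable {Ω : Type*} [MeasurableSpace Ω] {μ : Measure Ω} [IsProbabilityMeasure μ]

/-- the set of points whose first visit to `A` is at time `i` -/
def hit (D : Ω → Ω) (A : Set Ω) (i : ℕ) : Set Ω := {y | D^[i] y ∈ A ∧ ∀ j < i, D^[j] y ∉ A}

omit [MeasurableSpace Ω] in
lemma hit_shift (D : Ω → Ω) (A : Set Ω) {t k : ℕ} (hk : k ≤ t) {y : Ω} (hy : y ∈ hit D A t) :
    D^[k] y ∈ hit D A (t - k) := by
  obtain ⟨h1, h2⟩ := hy
  refine ⟨?_, ?_⟩
  · rw [← Function.iterate_add_apply, Nat.sub_add_cancel hk]; exact h1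
  · intro j hj
    rw [← Function.iterate_add_apply]
    exact h2 _ (by omega)

omit [MeasurableSpace Ω] in
lemma hit_disjoint (D : Ω → Ω) (A : Set Ω) {i j : ℕ} (hij : i ≠ j) :
    Disjoint (hit D A i) (hit D A j) := by
  rw [Set.disjoint_left]
  intro y hi hj
  rcases lt_or_gt_of_ne hij with h | h
  · exact hj.2 i h hi.1
  · exact hi.2 j h hj.1

lemma hit_measurable {D : Ω → Ω} (hD : Measurable D) {A : Set Ω} (hA : MeasurableSet A) (i : ℕ) :
    MeasurableSet (hit D A i) := by
  have : hit D A i = (D^[i] ⁻¹' A) ∩ ⋂ j : Fin i, (D^[j] ⁻¹' A)ᶜ := by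
    ext y
    simp only [hit, mem_ofPred_eq, mem_inter_iff, mem_preimage, mem_iInter, mem_compl_iff]
    refine and_congr_right fun _ => ⟨fun h j => h j j.2, fun h j hj => h ⟨j, hj⟩⟩
  rw [this]
  exact (hD.iterate i hA).inter (MeasurableSet.iInter fun j => (hD.iterate _ hA).compl)

omit [IsProbabilityMeasure μ] in
lemma hit_anti {D : Ω → Ω} (hD : MeasurePreserving D μ μ) {A : Set Ω} (hA : MeasurableSet A) :
    Antitone fun i => μ (hit D A i) := by
  apply antitone_nat_of_succ_le
  intro i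
  have hsub : hit D A (i + 1) ⊆ D ⁻¹' (hit D A i) := by
    intro y hy
    exact hit_shift D A (k := 1) (by omega) hy
  calc μ (hit D A (i + 1)) ≤ μ (D ⁻¹' (hit D A i)) := measure_mono hsub
    _ = μ (hit D A i) := hD.measure_preimage (hit_measurable hD.measurable hA i).nullMeasurableSet

omit [MeasurableSpace Ω] in
lemma hit_zero (D : Ω → Ω) (A : Set Ω) : hit D A 0 = A := by
  ext y; simp [hit]

/-- almost every point visits `A` -/
lemma hit_cover {D : Ω → Ω} (hD : Ergodic D μ) {A : Set Ω} (hA : MeasurableSet A) (hA0 : μ A ≠ 0) :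
    μ (⋃ i, hit D A i)ᶜ = 0 := by
  classical
  set Z : Set Ω := (⋃ i, hit D A i)ᶜ with hZ
  have hZm : MeasurableSet Z :=
    (MeasurableSet.iUnion fun i => hit_measurable hD.measurable hA i).compl
  have hZ' : ∀ y, y ∈ Z ↔ ∀ i, D^[i] y ∉ A := by
    intro y
    rw [hZ, mem_compl_iff, mem_iUnion]
    constructor
    · intro h i hi
      apply h
      have hex : ∃ n, D^[n] y ∈ A := ⟨i, hi⟩
      exact ⟨Nat.find hex, Nat.find_spec hex, fun j hj => Nat.find_min hex hj⟩
    · rintro h ⟨i, hi⟩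
      exact h i hi.1
  have hsub : Z ⊆ D ⁻¹' Z := by
    intro y hy
    rw [mem_preimage, hZ']
    intro i
    rw [← Function.iterate_succ_apply]
    exact (hZ' y).1 hy _
  rcases hD.ae_empty_or_univ_of_ae_le_preimage hZm.nullMeasurableSet
    (Filter.Eventually.of_forall hsub) with h | h
  · exact measure_congr h |>.trans measure_empty
  · exfalso
    have h1 : μ Zᶜ = 0 := by
      have := measure_congr h.compl
      simpa using this
    apply hA0
    refine measure_mono_null ?_ h1
    intro y hy hyZ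
    exact (hZ' y).1 hyZ 0 hy

lemma hit_residue {D : Ω → Ω} (hD : MeasurePreserving D μ μ) {A : Set Ω} (hA : MeasurableSet A)
    {M : ℕ} (hM : 0 < M) : μ (⋃ l, hit D A (l * M)) ≤ μ A + (M : ℝ≥0∞)⁻¹ := by
  have hm := fun i => hit_measurable hD.measurable hA i
  -- the part with l ≥ 1
  have h1 : μ (⋃ l, hit D A ((l + 1) * M)) ≤ (M : ℝ≥0∞)⁻¹ := by
    have hs : ∀ s : Fin M, μ (⋃ l, hit D A ((l + 1) * M)) ≤ μ (⋃ l, hit D A (l * M + s)) := by
      intro s
      rw [measure_iUnion _ (fun l => hm _), measure_iUnion _ (fun l => hm _)]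
      · apply ENNReal.tsum_le_tsum
        intro l
        apply hit_anti hD hA
        have := s.2
        rw [add_mul, one_mul]; omega
      · intro a b hab
        apply hit_disjoint
        intro h
        apply hab
        have := Nat.eq_of_mul_eq_mul_right hM (Nat.add_right_cancel h)
        exact this
      · intro a b hab
        apply hit_disjoint
        intro h
        apply hab
        have := Nat.eq_of_mul_eq_mul_right hM h
        omega
    have h2 : (M : ℝ≥0∞) * μ (⋃ l, hit D A ((l + 1) * M)) ≤ 1 := by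
      calc (M : ℝ≥0∞) * μ (⋃ l, hit D A ((l + 1) * M))
          = ∑ s : Fin M, μ (⋃ l, hit D A ((l + 1) * M)) := by simp
        _ ≤ ∑ s : Fin M, μ (⋃ l, hit D A (l * M + s)) := Finset.sum_le_sum fun s _ => hs s
        _ = μ (⋃ s : Fin M, ⋃ l, hit D A (l * M + s)) := by
            rw [measure_iUnion]
            · exact (tsum_fintype _).symm
            · intro s t hst
              rw [Function.onFun, Set.disjoint_iUnion_left]
              intro l
              rw [Set.disjoint_iUnion_right]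
              intro l'
              apply hit_disjoint
              intro h
              apply hst
              have h3 := congrArg (· % M) h
              simp only [Nat.mul_add_mod_self_right] at h3
              rw [Nat.mod_eq_of_lt s.2, Nat.mod_eq_of_lt t.2] at h3
              exact Fin.ext h3
            · intro s
              exact MeasurableSet.iUnion fun l => hm _
        _ ≤ 1 := prob_le_one
    rw [← one_div, ENNReal.le_div_iff_mul_le]
    · rw [mul_comm]; exact h2
    · left; exact_mod_cast hM.ne'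
    · left; exact ENNReal.natCast_ne_top M
  have h2 : (⋃ l, hit D A (l * M)) ⊆ A ∪ ⋃ l, hit D A ((l + 1) * M) := by
    intro y hy
    obtain ⟨l, hl⟩ := mem_iUnion.1 hy
    cases l with
    | zero => left; simpa [hit_zero] using hl
    | succ l => right; exact mem_iUnion.2 ⟨l, hl⟩
  calc μ (⋃ l, hit D A (l * M)) ≤ μ (A ∪ ⋃ l, hit D A ((l + 1) * M)) := measure_mono h2
    _ ≤ μ A + μ (⋃ l, hit D A ((l + 1) * M)) := measure_union_le _ _
    _ ≤ _ := by gcongr

/-- For every horizon `κ` there is a small set `E` such that for most `y` all `D^k y` with `k ≤ κ` in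
a suitable residue class modulo `M` lie in `E`. -/
lemma tower {D : Ω → Ω} (hD : Ergodic D μ) {M : ℕ} (hM : 0 < M) (κ : ℕ) {δ : ℝ≥0∞}
    (hA : ∃ A : Set Ω, MeasurableSet A ∧ μ A ≠ 0 ∧ (κ + 1) * μ A ≤ δ) :
    ∃ E : Set Ω, MeasurableSet E ∧ μ E ≤ δ + (M : ℝ≥0∞)⁻¹ ∧
      ∃ G : Set Ω, MeasurableSet G ∧ μ Gᶜ ≤ δ ∧
        ∀ y ∈ G, ∃ j < M, ∀ k ≤ κ, k % M = j → D^[k] y ∈ E := by
  obtain ⟨A, hAm, hA0, hAδ⟩ := hA
  have hAδ' : μ A ≤ δ := by
    refine le_trans ?_ hAδ
    calc μ A = 1 * μ A := (one_mul _).symm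
      _ ≤ (κ + 1) * μ A := by gcongr; exact le_add_self
  have hm := fun i => hit_measurable hD.measurable hAm i
  refine ⟨⋃ l, hit D A (l * M), MeasurableSet.iUnion fun l => hm _, ?_,
    ⋃ t, hit D A (κ + 1 + t), MeasurableSet.iUnion fun l => hm _, ?_, ?_⟩
  · refine (hit_residue hD.toMeasurePreserving hAm hM).trans ?_
    gcongr
  · have hsub : (⋃ t, hit D A (κ + 1 + t))ᶜ ⊆ (⋃ i, hit D A i)ᶜ ∪ ⋃ i : Fin (κ + 1), hit D A i := by
      intro y hy
      by_cases h : y ∈ ⋃ i, hit D A i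
      · right
        obtain ⟨i, hi⟩ := mem_iUnion.1 h
        have hlt : i < κ + 1 := by
          by_contra hcon
          apply hy
          refine mem_iUnion.2 ⟨i - (κ + 1), ?_⟩
          rwa [show κ + 1 + (i - (κ + 1)) = i by omega]
        exact mem_iUnion.2 ⟨⟨i, hlt⟩, hi⟩
      · left; exact h
    calc μ (⋃ t, hit D A (κ + 1 + t))ᶜ
        ≤ μ ((⋃ i, hit D A i)ᶜ ∪ ⋃ i : Fin (κ + 1), hit D A i) := measure_mono hsub
      _ ≤ μ (⋃ i, hit D A i)ᶜ + μ (⋃ i : Fin (κ + 1), hit D A i) := measure_union_le _ _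
      _ = μ (⋃ i : Fin (κ + 1), hit D A i) := by rw [hit_cover hD hAm hA0, zero_add]
      _ ≤ ∑ i : Fin (κ + 1), μ (hit D A i) := measure_iUnion_fintype_le _ _
      _ ≤ ∑ i : Fin (κ + 1), μ A := by
          apply Finset.sum_le_sum
          intro i _
          have := hit_anti hD.toMeasurePreserving hAm (Nat.zero_le (i : ℕ))
          simpa [hit_zero] using this
      _ = (κ + 1) * μ A := by simp
      _ ≤ δ := hAδ
  · intro y hy
    obtain ⟨t, ht⟩ := mem_iUnion.1 hy
    refine ⟨(κ + 1 + t) % M, Nat.mod_lt _ hM, ?_⟩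
    intro k hk hkM
    have h1 := hit_shift D A (show k ≤ κ + 1 + t by omega) ht
    have h2 : M ∣ κ + 1 + t - k := (Nat.modEq_iff_dvd' (by omega)).1 hkM
    obtain ⟨l, hl⟩ := h2
    rw [hl, mul_comm] at h1
    exact mem_iUnion.2 ⟨l, h1⟩

end tower

/-- `X = {2, 3, 4, ...}^ℕ`, the product of discrete spaces. -/
abbrev X : Type := ℕ → {n : ℕ // 2 ≤ n}

/-- The partial products `ω_n ⋯ ω_2 ω_1`, where the sequence `ω` is indexed from `0`, so that
`ω_i` is `ω (i - 1)`. -/
def partialProd (ω : X) (n : ℕ) : ℕ := ∏ i ∈ Finset.range n, (ω i : ℕ)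

/-- `(λ_n)_{n ≥ 1}` is an `L^p`-Khintchin sequence. (Only the values `lam n` with `n ≥ 1` matter.) -/
def IsKhintchin (p : ℝ≥0∞) (lam : ℕ → ℤ) : Prop :=
  ∀ f : UnitAddCircle → ℝ, MemLp f p volume →
    ∀ᵐ x : UnitAddCircle, Tendsto (fun N : ℕ => (1 / (N : ℝ)) * ∑ n ∈ Finset.Icc 1 N, f (lam n • x))
      atTop (𝓝 (∫ y, f y))

/-- the exponents used at a stage -/
def kk (M p n : ℕ) : ℕ := M * (n - p) + Nat.log 4 ((n - 1) / p)

lemma kk_self (M p : ℕ) (hp : 0 < p) : kk M p p = 0 := by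
  unfold kk
  rw [Nat.div_eq_of_lt (by omega)]
  simp

lemma kk_lt {M p n : ℕ} (hM : 0 < M) (hn : p ≤ n) : kk M p n < kk M p (n + 1) := by
  unfold kk
  have h1 : Nat.log 4 ((n - 1) / p) ≤ Nat.log 4 ((n + 1 - 1) / p) :=
    Nat.log_mono_right (Nat.div_le_div_right (by omega))
  have h2 : M * (n + 1 - p) = M * (n - p) + M := by
    rw [show n + 1 - p = (n - p) + 1 by omega, mul_add, mul_one]
  omega

lemma kk_mod {M p j n : ℕ} (hp : 0 < p) (hj : j < M) (h1 : 4 ^ j * p < n)
    (h2 : n ≤ 4 ^ (j + 1) * p) : kk M p n % M = j := by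
  unfold kk
  have h3 : Nat.log 4 ((n - 1) / p) = j := by
    rw [Nat.log_eq_iff (by right; exact ⟨by norm_num, (Nat.div_pos (by
      have : 1 * p ≤ 4 ^ j * p := Nat.mul_le_mul_right _ (Nat.one_le_pow _ _ (by norm_num))
      omega) hp).ne'⟩)]
    constructor
    · rw [Nat.le_div_iff_mul_le hp]; omega
    · rw [Nat.div_lt_iff_lt_mul hp]
      have : 0 < 4 ^ (j+1) * p := by positivity
      omega
  rw [h3, Nat.mul_add_mod, Nat.mod_eq_of_lt hj]

def MM (m : ℕ) : ℕ := 2 ^ (m + 3)

lemma MM_pos (m : ℕ) : 0 < MM m := by unfold MM; positivity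

/-- the dense open sets -/
def G (m : ℕ) : Set X :=
  {ω | ∃ p, m + 1 ≤ p ∧ ∀ n, p < n → n ≤ 4 ^ (MM m) * p →
    partialProd ω n = partialProd ω p * 2 ^ (kk (MM m) p n)}

lemma continuous_partialProd (n : ℕ) : Continuous fun ω : X => partialProd ω n := by
  unfold partialProd
  exact continuous_finsetProd _ fun i _ => continuous_subtype_val.comp (continuous_apply i)

lemma isOpen_G (m : ℕ) : IsOpen (G m) := by
  have : G m = ⋃ p : ℕ, ⋃ _ : m + 1 ≤ p, ⋂ n ∈ Finset.Ioc p (4 ^ (MM m) * p),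
      {ω : X | partialProd ω n = partialProd ω p * 2 ^ (kk (MM m) p n)} := by
    ext ω
    simp only [G, mem_ofPred_eq, mem_iUnion, mem_iInter, Finset.mem_Ioc, exists_prop]
    refine exists_congr fun p => and_congr_right fun _ => ?_
    exact ⟨fun h n hn => h n hn.1 hn.2, fun h n h1 h2 => h n ⟨h1, h2⟩⟩
  rw [this]
  refine isOpen_iUnion fun p => isOpen_iUnion fun _ => isOpen_biInter_finset fun n _ => ?_
  exact (isOpen_discrete {q : ℕ × ℕ | q.1 = q.2 * 2 ^ (kk (MM m) p n)}).preimage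
    ((continuous_partialProd n).prodMk (continuous_partialProd p))

lemma dense_G (m : ℕ) : Dense (G m) := by
  classical
  rw [dense_iff_inter_open]
  rintro U hU ⟨ω₀, hω₀⟩
  obtain ⟨I, u, hu, hsub⟩ := isOpen_pi_iff.1 hU ω₀ hω₀
  set p := max (m + 1) (I.sup id + 1) with hp
  have hp1 : m + 1 ≤ p := le_max_left _ _
  have hM := MM_pos m
  let ω : X := fun i => if h : i < p then ω₀ i else
    ⟨2 ^ (kk (MM m) p (i + 1) - kk (MM m) p i), by
      have := kk_lt (p := p) hM (not_lt.1 h)
      calc 2 = 2 ^ 1 := (pow_one 2).symm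
        _ ≤ 2 ^ (kk (MM m) p (i + 1) - kk (MM m) p i) :=
          Nat.pow_le_pow_right (by norm_num) (by omega)⟩
  refine ⟨ω, hsub ?_, p, hp1, ?_⟩
  · intro i hi
    have hi' : i < p := by
      have h1 : id i ≤ I.sup id := Finset.le_sup (f := id) hi
      have h2 : I.sup id + 1 ≤ p := le_max_right _ _
      simp only [id] at h1
      omega
    have : ω i = ω₀ i := by simp only [ω, dif_pos hi']
    rw [this]
    exact (hu i hi).2
  · have key : ∀ n, p ≤ n → partialProd ω n = partialProd ω p * 2 ^ (kk (MM m) p n) := by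
      intro n hn
      induction n, hn using Nat.le_induction with
      | base => rw [kk_self _ _ (by omega), pow_zero, mul_one]
      | succ n hn ih =>
        have h1 : partialProd ω (n + 1) = partialProd ω n * (ω n : ℕ) := by
          unfold partialProd; rw [Finset.prod_range_succ]
        have h2 : (ω n : ℕ) = 2 ^ (kk (MM m) p (n + 1) - kk (MM m) p n) := by
          simp only [ω, dif_neg (not_lt.2 hn)]
        rw [h1, ih, h2, mul_assoc, ← pow_add]
        congr 2
        have := kk_lt (p := p) hM hn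
        omega
    intro n hn _
    exact key n hn.le

/-- a small ball -/
lemma exists_small (κ : ℕ) {d : ℝ} (hd : 0 < d) :
    ∃ A : Set UnitAddCircle, MeasurableSet A ∧ volume A ≠ 0 ∧ (κ + 1) * volume A ≤ ENNReal.ofReal d := by
  refine ⟨Metric.closedBall 0 (d / (2 * (κ + 1))), Metric.isClosed_closedBall.measurableSet, ?_, ?_⟩
  · rw [AddCircle.volume_closedBall]
    have : 0 < min (1:ℝ) (2 * (d / (2 * (κ + 1)))) := lt_min one_pos (by positivity)
    simpa using this
  · rw [AddCircle.volume_closedBall]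
    have h1 : ((κ : ℝ≥0∞) + 1) = ENNReal.ofReal (κ + 1) := by
      rw [ENNReal.ofReal_add (by positivity) (by positivity)]
      simp
    rw [h1, ← ENNReal.ofReal_mul (by positivity)]
    apply ENNReal.ofReal_le_ofReal
    calc ((κ:ℝ) + 1) * min 1 (2 * (d / (2 * (κ + 1)))) ≤ (κ + 1) * (2 * (d / (2 * (κ + 1)))) := by
          apply mul_le_mul_of_nonneg_left (min_le_right _ _) (by positivity)
      _ = d := by field_simp

lemma two_iter (k : ℕ) (y : UnitAddCircle) : (fun y : UnitAddCircle => (2:ℕ) • y)^[k] y = (2 ^ k : ℕ) • y := by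
  induction k with
  | zero => simp
  | succ k ih => rw [Function.iterate_succ_apply', ih, smul_smul, pow_succ, mul_comm]

lemma one_lt_partialProd (ω : X) {n : ℕ} (hn : 0 < n) : 1 < partialProd ω n := by
  unfold partialProd
  have h : ∀ i ∈ Finset.range n, 1 < (ω i : ℕ) := fun i _ => (ω i).2
  calc 1 = ∏ i ∈ Finset.range n, 1 := by simp
    _ < ∏ i ∈ Finset.range n, (ω i : ℕ) :=
      Finset.prod_lt_prod_of_nonempty (fun _ _ => one_pos) h ⟨0, Finset.mem_range.2 hn⟩

lemma not_khintchin (q : ℝ≥0∞) {ω : X} (hω : ∀ m, ω ∈ G m) :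
    ¬ IsKhintchin q (fun n => (partialProd ω n : ℤ)) := by
  classical
  intro hK
  choose p hp hpn using hω
  have hp0 : ∀ m, 0 < p m := fun m => by have := hp m; omega
  let κ : ℕ → ℕ := fun m => (Finset.range (4 ^ (MM m) * p m + 1)).sup (kk (MM m) (p m))
  have hκ : ∀ m n, n ≤ 4 ^ (MM m) * p m → kk (MM m) (p m) n ≤ κ m := by
    intro m n hn
    exact Finset.le_sup (f := kk (MM m) (p m)) (Finset.mem_range.2 (by omega))
  have : IsProbabilityMeasure (volume : Measure UnitAddCircle) := ⟨UnitAddCircle.measure_univ⟩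
  have hD : Ergodic (fun y : UnitAddCircle => (2:ℕ) • y) volume := AddCircle.ergodic_nsmul (by norm_num)
  have htow := fun m => tower hD (MM_pos m) (κ m) (exists_small (κ m) (d := 1 / (MM m : ℝ))
    (by have := MM_pos m; positivity))
  choose E hEm hE G hGm hG hEG using htow
  have hδ : ∀ m, ENNReal.ofReal (1 / (MM m : ℝ)) = (MM m : ℝ≥0∞)⁻¹ := by
    intro m
    have : (0:ℝ) < MM m := by exact_mod_cast MM_pos m
    rw [one_div, ENNReal.ofReal_inv_of_pos this, ENNReal.ofReal_natCast]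
  have hMM : ∀ m, (MM m : ℝ≥0∞)⁻¹ = (2⁻¹ : ℝ≥0∞) ^ 3 * (2⁻¹ : ℝ≥0∞) ^ m := by
    intro m
    unfold MM
    push_cast
    rw [← pow_add, ENNReal.inv_pow, add_comm]
  have hsum : ∑' m, (MM m : ℝ≥0∞)⁻¹ = 2⁻¹ ^ 3 * 2 := by
    simp_rw [hMM]
    rw [ENNReal.tsum_mul_left, ENNReal.tsum_geometric, ENNReal.one_sub_inv_two, inv_inv]
  set F : Set UnitAddCircle := ⋃ m, E m with hF
  have hFm : MeasurableSet F := MeasurableSet.iUnion hEm
  have hFμ : volume F ≤ 2⁻¹ := by
    calc volume F ≤ ∑' m, volume (E m) := measure_iUnion_le _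
      _ ≤ ∑' m, ((MM m : ℝ≥0∞)⁻¹ + (MM m : ℝ≥0∞)⁻¹) := by
          apply ENNReal.tsum_le_tsum
          intro m
          have := hE m
          rwa [hδ m] at this
      _ = 2⁻¹ ^ 3 * 2 + 2⁻¹ ^ 3 * 2 := by rw [ENNReal.tsum_add, hsum]
      _ = 2⁻¹ := by
          have h2 : (2⁻¹ : ℝ≥0∞) * 2 = 1 := ENNReal.inv_mul_cancel (by norm_num) (by norm_num)
          calc (2⁻¹ : ℝ≥0∞) ^ 3 * 2 + 2⁻¹ ^ 3 * 2 = 2⁻¹ * (2⁻¹ * 2) * (2⁻¹ * 2) := by ring
            _ = 2⁻¹ := by rw [h2, mul_one, mul_one]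
  let f : UnitAddCircle → ℝ := F.indicator fun _ => 1
  have hf : MemLp f q volume := by
    apply MemLp.indicator hFm
    exact memLp_const 1
  have hint : ∫ y, f y = (volume F).toReal := by
    rw [integral_indicator hFm]
    simp [Measure.real]
  have hint2 : ∫ y, f y ≤ 1 / 2 := by
    rw [hint]
    have := ENNReal.toReal_mono (by norm_num) hFμ
    simpa using this
  have hgood : ∀ᵐ x : UnitAddCircle, ∀ᶠ m in atTop, x ∉ {x | partialProd ω (p m) • x ∈ (G m)ᶜ} := by
    apply ae_eventually_notMem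
    have h1 : ∀ m, volume {x : UnitAddCircle | partialProd ω (p m) • x ∈ (G m)ᶜ} ≤ (MM m : ℝ≥0∞)⁻¹ := by
      intro m
      have h2 : MeasurePreserving (fun y : UnitAddCircle => (partialProd ω (p m)) • y) volume volume :=
        (AddCircle.ergodic_nsmul (one_lt_partialProd ω (hp0 m))).toMeasurePreserving
      have h3 := h2.measure_preimage (hGm m).compl.nullMeasurableSet
      calc volume {x : UnitAddCircle | partialProd ω (p m) • x ∈ (G m)ᶜ} = volume (G m)ᶜ := h3
        _ ≤ _ := by have := hG m; rwa [hδ m] at this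
    have h4 : ∑' m, volume {x : UnitAddCircle | partialProd ω (p m) • x ∈ (G m)ᶜ} ≤ 2⁻¹ ^ 3 * 2 := by
      rw [← hsum]
      exact ENNReal.tsum_le_tsum h1
    refine ne_top_of_le_ne_top ?_ h4
    finiteness
  obtain ⟨x, hx1, hx2⟩ := ((hK f hf).and hgood).exists
  have hev : ∀ᶠ N : ℕ in atTop, (1 / (N : ℝ)) * ∑ n ∈ Finset.Icc 1 N, f (((partialProd ω n : ℕ) : ℤ) • x) < 3 / 4 :=
    hx1.eventually_lt_const (by linarith)
  obtain ⟨N₀, hN₀⟩ := eventually_atTop.1 hev
  obtain ⟨m, hm, hmN⟩ := (hx2.and (eventually_ge_atTop N₀)).exists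
  have hmG : partialProd ω (p m) • x ∈ G m := by
    by_contra hcon
    exact hm hcon
  obtain ⟨j, hj, hEj⟩ := hEG m _ hmG
  have hNbig : N₀ ≤ 4 ^ (j + 1) * p m := by
    have h1 := hp m
    have h2 : 1 * p m ≤ 4 ^ (j + 1) * p m := Nat.mul_le_mul_right _ (Nat.one_le_pow _ _ (by norm_num))
    omega
  have hcontra := hN₀ _ hNbig
  have hsub : Finset.Ioc (4 ^ j * p m) (4 ^ (j + 1) * p m) ⊆ Finset.Icc 1 (4 ^ (j + 1) * p m) := by
    intro n hn
    rw [Finset.mem_Ioc] at hn
    rw [Finset.mem_Icc]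
    omega
  have hf0 : ∀ y, 0 ≤ f y := fun y => Set.indicator_nonneg (fun _ _ => zero_le_one) y
  have hlow : ((4 ^ (j + 1) * p m : ℕ) : ℝ) - ((4 ^ j * p m : ℕ) : ℝ) ≤
      ∑ n ∈ Finset.Icc 1 (4 ^ (j + 1) * p m), f (((partialProd ω n : ℕ) : ℤ) • x) := by
    calc ((4 ^ (j + 1) * p m : ℕ) : ℝ) - ((4 ^ j * p m : ℕ) : ℝ)
        = ∑ n ∈ Finset.Ioc (4 ^ j * p m) (4 ^ (j + 1) * p m), (1:ℝ) := by
          rw [Finset.sum_const, Nat.card_Ioc, nsmul_eq_mul, mul_one, Nat.cast_sub]
          exact Nat.mul_le_mul_right _ (Nat.pow_le_pow_right (by norm_num) (by omega))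
      _ = ∑ n ∈ Finset.Ioc (4 ^ j * p m) (4 ^ (j + 1) * p m), f (((partialProd ω n : ℕ) : ℤ) • x) := by
          apply Finset.sum_congr rfl
          intro n hn
          rw [Finset.mem_Ioc] at hn
          have h1 : n ≤ 4 ^ (MM m) * p m := hn.2.trans
            (Nat.mul_le_mul_right _ (Nat.pow_le_pow_right (by norm_num) (by omega)))
          have h2 : p m < n := by
            have : 1 * p m ≤ 4 ^ j * p m := Nat.mul_le_mul_right _ (Nat.one_le_pow _ _ (by norm_num))
            omega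
          have h3 := hpn m n h2 h1
          have h4 : (((partialProd ω n : ℕ) : ℤ) • x) =
              (fun y : UnitAddCircle => (2:ℕ) • y)^[kk (MM m) (p m) n] (partialProd ω (p m) • x) := by
            rw [two_iter, natCast_zsmul, h3, smul_smul, mul_comm]
          have h5 : (((partialProd ω n : ℕ) : ℤ) • x) ∈ F := by
            rw [h4]
            exact mem_iUnion.2 ⟨m, hEj _ (hκ m n h1) (kk_mod (hp0 m) hj hn.1 hn.2)⟩
          exact (Set.indicator_of_mem h5 (fun _ => (1:ℝ))).symm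
      _ ≤ _ := Finset.sum_le_sum_of_subset_of_nonneg hsub fun _ _ _ => hf0 _
  have hNpos : (0:ℝ) < ((4 ^ (j + 1) * p m : ℕ) : ℝ) := by
    have := hp0 m
    exact_mod_cast (by positivity : 0 < 4 ^ (j + 1) * p m)
  rw [div_mul_eq_mul_div, one_mul, div_lt_iff₀ hNpos] at hcontra
  have h6 : ((4 ^ (j + 1) * p m : ℕ) : ℝ) = 4 * ((4 ^ j * p m : ℕ) : ℝ) := by
    push_cast; ring
  linarith

/-- **MP_1ea763_an, Q1 (negative answer).** For every `p ∈ [0, ∞]` the set of all `ω ∈ X` whose
partial products form an `L^p`-Khintchin sequence is meagre in `X`. For `p = 1` this is the set `K`. -/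
theorem result (p : ℝ≥0∞) : IsMeagre {ω : X | IsKhintchin p fun n => (partialProd ω n : ℤ)} := by
  have h : (⋂ m, G m) ∈ residual X :=
    countable_iInter_mem.2 fun m => residual_of_dense_open (isOpen_G m) (dense_G m)
  refine mem_of_superset h ?_
  intro ω hω
  exact not_khintchin p (mem_iInter.1 hω)

end Pool.Agent.Results.MP_1ea763_an.KhintchinMeagre
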